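import Pool.Agent.H15.HLU.Targets

/-! Row NUM of the board hlu (helper53). -/

set_option autoImplicit false

namespace Pool.Agent.H53.HLU

open Pool.Agent.H51.Homog Pool.Agent.H22.HSQ Pool.Agent.H15.HLS Pool.Agent.H15.HLU

theorem num_pig (a : ℕ) (ha : 10 ≤ a) : ∃ j ∈ Finset.Icc 1 7,
    ∀ p ∈ ({1201, 1321, 1801, 251, 257, 263} : Finset ℕ), ∀ k ∈ ({7, 11, 13} : Finset ℕ),
      ¬ p ∣ 30 * (a - j) + k := by
  by_contra hcon
  push Not at hcon
  choose! f hf g hg hd using hcon
  have hcard : (({1201, 1321, 1801, 251, 257, 263} : Finset ℕ)).card <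
      (Finset.Icc 1 7).card := by decide
  obtain ⟨i, hi, j, hj, hij, he⟩ := Finset.exists_ne_map_eq_of_card_lt_of_maps_to hcard
    (f := f) (fun j hj => hf j hj)
  have h1 := hd i hi
  have h2 := hd j hj
  rw [← he] at h2
  have h3 := hf i hi
  have h4 := hg i hi
  have h5 := hg j hj
  rw [Finset.mem_Icc] at hi hj
  have h6 : 251 ≤ f i := by
    simp only [Finset.mem_insert, Finset.mem_singleton] at h3
    omega
  simp only [Finset.mem_insert, Finset.mem_singleton] at h4 h5
  have h7 : (f i : ℤ) ∣ ((30 * (a - i) + g i : ℕ) : ℤ) - ((30 * (a - j) + g j : ℕ) : ℤ) :=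
    dvd_sub (Int.natCast_dvd_natCast.2 h1) (Int.natCast_dvd_natCast.2 h2)
  rcases lt_or_gt_of_ne (show ((30 * (a - i) + g i : ℕ) : ℤ) - ((30 * (a - j) + g j : ℕ) : ℤ) ≠ 0 by
    omega) with h | h
  · have h9 := Int.le_of_dvd (by omega) ((dvd_neg).2 h7)
    omega
  · have h9 := Int.le_of_dvd h h7
    omega

theorem num_cop {p n : ℕ} (hp : p.Prime) (h : ¬ p ∣ n) : Nat.Coprime n p :=
  ((Nat.Prime.coprime_iff_not_dvd hp).2 h).symm

/-- numbers with a small difference -/
theorem num_pair {m n : ℕ} (h2 : ¬ 2 ∣ m) (h3 : ¬ 3 ∣ m) (h : m + 4 = n ∨ m + 2 = n ∨ m + 6 = n) :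
    Nat.Coprime m n := by
  rw [Nat.coprime_iff_gcd_eq_one]
  by_contra hne
  obtain ⟨p, hp, hpd⟩ := Nat.exists_prime_and_dvd hne
  have hm : p ∣ m := hpd.trans (Nat.gcd_dvd_left _ _)
  have hn : p ∣ n := hpd.trans (Nat.gcd_dvd_right _ _)
  have key : p ∣ 12 := by
    rcases h with h | h | h
    · have h5 : p ∣ 4 := (Nat.dvd_add_right hm).1 (by rw [h]; exact hn)
      exact h5.trans (by norm_num)
    · have h5 : p ∣ 2 := (Nat.dvd_add_right hm).1 (by rw [h]; exact hn)
      exact h5.trans (by norm_num)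
    · have h5 : p ∣ 6 := (Nat.dvd_add_right hm).1 (by rw [h]; exact hn)
      exact h5.trans (by norm_num)
  have h12 : (12 : ℕ) = 2 ^ 2 * 3 := by norm_num
  rw [h12] at key
  rcases (hp.dvd_mul).1 key with h5 | h5
  · have h6 := hp.dvd_of_dvd_pow h5
    have h7 : p = 2 := (Nat.prime_dvd_prime_iff_eq hp Nat.prime_two).1 h6
    exact h2 (h7 ▸ hm)
  · have h7 : p = 3 := (Nat.prime_dvd_prime_iff_eq hp Nat.prime_three).1 h5
    exact h3 (h7 ▸ hm)

theorem pf_NUM : T_NUM := by
  intro J hJ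
  obtain ⟨j, hj, hP⟩ := num_pig (J / 30) (by omega)
  rw [Finset.mem_Icc] at hj
  set x := 30 * (J / 30 - j) with hx
  have hall : ∀ k ∈ ({7, 11, 13} : Finset ℕ), Nat.Coprime (x + k) (30 * QQ) := by
    intro k hk
    have hk' : k = 7 ∨ k = 11 ∨ k = 13 := by simpa using hk
    have a1 := num_cop (p := 1201) (by norm_num) (hP 1201 (by simp) k hk)
    have a2 := num_cop (p := 1321) (by norm_num) (hP 1321 (by simp) k hk)
    have a3 := num_cop (p := 1801) (by norm_num) (hP 1801 (by simp) k hk)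
    have a4 := num_cop (p := 251) (by norm_num) (hP 251 (by simp) k hk)
    have a5 := num_cop (p := 257) (by norm_num) (hP 257 (by simp) k hk)
    have a6 := num_cop (p := 263) (by norm_num) (hP 263 (by simp) k hk)
    have b1 : Nat.Coprime (x + k) 2 := num_cop (by norm_num) (by omega)
    have b2 : Nat.Coprime (x + k) 3 := num_cop (by norm_num) (by omega)
    have b3 : Nat.Coprime (x + k) 5 := num_cop (by norm_num) (by omega)
    have h30 : Nat.Coprime (x + k) 30 := by
      have h := (b1.mul_right b2).mul_right b3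
      simpa using h
    unfold QQ
    exact h30.mul_right (((((a1.mul_right a2).mul_right a3).mul_right a4).mul_right a5).mul_right a6)
  have h2 : ∀ k, k = 7 ∨ k = 11 ∨ k = 13 → ¬ 2 ∣ x + k := by intro k hk; omega
  have h3 : ∀ k, k = 7 ∨ k = 11 ∨ k = 13 → ¬ 3 ∣ x + k := by intro k hk; omega
  have c1 : Nat.Coprime (x + 7) (x + 11) := num_pair (h2 7 (by simp)) (h3 7 (by simp)) (by omega)
  have c2 : Nat.Coprime (x + 7) (x + 13) := num_pair (h2 7 (by simp)) (h3 7 (by simp)) (by omega)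
  have c3 : Nat.Coprime (x + 11) (x + 13) :=
    num_pair (h2 11 (by simp)) (h3 11 (by simp)) (by omega)
  refine ⟨![x + 7, x + 11, x + 13], ?_, ?_, ?_⟩
  · intro i
    fin_cases i <;> simp <;> omega
  · intro i
    fin_cases i
    · exact hall 7 (by simp)
    · exact hall 11 (by simp)
    · exact hall 13 (by simp)
  · intro i k hik
    fin_cases i <;> fin_cases k
    · exact absurd rfl hik
    · exact c1
    · exact c2
    · exact c1.symm
    · exact absurd rfl hik
    · exact c3
    · exact c2.symm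
    · exact c3.symm
    · exact absurd rfl hik

end Pool.Agent.H53.HLU
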